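import Pool.Agent.LibRCAK.Transfer
import Pool.Agent.LibRCAK.Torus
/-!
# Rationally connected almost Kähler manifolds need not be simply connected

Let `Y` be a compact connected almost Kähler manifold with form `τ`. On `X = S² × S² × Y`, with
points `(z, f, y)`, take the product symplectic form `σ ⊕ σ ⊕ τ` and a family `ξ_f` of vector
fields on `Y` depending on the point `f` of the second sphere. The shear
`Φ(a, b, η) = (a - τ(ξ_f, η) (z × e₃), b, η + dz₃(a) ξ_f)` is symplectic, so `J = Φ J₀ Φ⁻¹`
is compatible with the form. The spheres `p ↦ (z, p, y)` and `p ↦ (p, f, γ(p₃))`, with `γ` an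
integral curve of `ξ_f`, are `J`-holomorphic. A sphere of the second kind moves the coordinate
`y` along the flow of `ξ_f` when `z` runs from one pole to the other one. For a suitable family
`ξ_f`, chains of a fixed number of these spheres connect any two points.
-/
set_option autoImplicit false
open scoped Manifold ContDiff Topology
open Pool.Agent.LibRCAK

namespace Pool.Agent.Results.MP_3c8839_gt.TwistedProduct

/-- There is a compact connected almost Kähler manifold `M` satisfying (RC_A) for some `A`, with
infinite fundamental group. More generally, for every compact connected almost Kähler manifold `N`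
there is a compact connected almost Kähler manifold `M`, homeomorphic to `P¹ × P¹ × N`, which
satisfies (RC_A) for some `A`, and a continuous map `M → N` which is onto on fundamental
groups. -/
theorem result :
    (∃ M : CompactAK, M.RationallyConnected ∧ ∀ x : M.X, Infinite (FundamentalGroup M.X x)) ∧
    ∀ N : CompactAK, ∃ M : CompactAK, M.RationallyConnected ∧
      Nonempty (M.X ≃ₜ P1 × (P1 × N.X)) ∧
      ∃ f : C(M.X, N.X), ∀ x, Function.Surjective (FundamentalGroup.map f x) := by
  refine ⟨?_, exists_twisted⟩
  obtain ⟨M, hM, -, f, hf⟩ := exists_twisted
    { E := EuclideanSpace ℝ (Fin 1) × EuclideanSpace ℝ (Fin 1)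
      H := ModelProd (EuclideanSpace ℝ (Fin 1)) (EuclideanSpace ℝ (Fin 1))
      I := (𝓡 1).prod (𝓡 1)
      X := Circle × Circle
      K := torusAK }
  refine ⟨M, hM, fun x => ?_⟩
  have := torus_infinite (f x)
  exact Infinite.of_surjective _ (hf x)

end Pool.Agent.Results.MP_3c8839_gt.TwistedProduct
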